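import Pool.Agent.KS6_36.St.A

set_option autoImplicit false

namespace Pool.Agent.Results.MP_26fc11_gt.QuarterPower

open MeasureTheory

/-- The polar of a set. -/
def polar {n : ℕ} (K : Set (EuclideanSpace ℝ (Fin n))) : Set (EuclideanSpace ℝ (Fin n)) :=
  {y | ∀ x ∈ K, inner ℝ x y ≤ (1 : ℝ)}

/-- The Steiner symmetral of `K` with respect to the hyperplane orthogonal to the unit vector `u`:
the points `z` whose line parallel to `u` meets `K`, in a set of length at least `2 |⟨z, u⟩|`. -/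
def steiner {n : ℕ} (u : EuclideanSpace ℝ (Fin n)) (K : Set (EuclideanSpace ℝ (Fin n))) :
    Set (EuclideanSpace ℝ (Fin n)) :=
  {z | (∃ s : ℝ, z + s • u ∈ K) ∧
    ENNReal.ofReal (2 * |inner ℝ z u|) ≤ volume {s : ℝ | z + s • u ∈ K}}

/-- In every dimension `n = d ^ 2` with `d ≥ 2` there is an origin-symmetric convex body `K` such that
for every direction `u` the polar of the Steiner symmetral of `K` has volume at least
`n ^ (1 / 4) / 9000` times the volume of the polar of `K`. -/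
theorem result (n : ℕ) (hn : 2 ≤ n) (hs : IsSquare n) :
    ∃ K : Set (EuclideanSpace ℝ (Fin n)),
      IsCompact K ∧ Convex ℝ K ∧ (interior K).Nonempty ∧ (∀ x ∈ K, -x ∈ K) ∧
      ∀ u : EuclideanSpace ℝ (Fin n), ‖u‖ = 1 →
        ENNReal.ofReal ((n : ℝ) ^ (1 / 4 : ℝ) / 9000) * volume (polar K) ≤
          volume (polar (steiner u K)) := by
  obtain ⟨d, rfl⟩ := hs
  have hd : 2 ≤ d := by
    by_contra h
    have h1 : d ≤ 1 := by omega
    have : d * d ≤ 1 * 1 := Nat.mul_le_mul h1 h1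
    omega
  obtain ⟨K, h1, h2, h3, h4, h5⟩ := Pool.Agent.KS6_36.St.quant d hd
  refine ⟨K, h1, h2, h3, h4, fun u hu => ?_⟩
  have e : ((d * d : ℕ) : ℝ) ^ (1 / 4 : ℝ) = Real.sqrt d := by
    rw [Nat.cast_mul, ← sq, ← Real.rpow_natCast, ← Real.rpow_mul (Nat.cast_nonneg d),
      Real.sqrt_eq_rpow]
    norm_num
  rw [e]
  exact h5 u hu

end Pool.Agent.Results.MP_26fc11_gt.QuarterPower
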